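import Mathlib
import Pool.Agent.H994E.Final3

/-!
# MP_3c7b76_co: the dense case

Notation: `n` vertices, `e` edges, `x = e / n`.  The conjectured bound is `x²`.  We prove the
stronger bound `x² + x - 1/4` whenever `4 e + 2 n ≥ n²`, and `x²` also when `n ≤ 357`, or
`e ≤ 79 n`, or `10 e³ ≤ 39 n⁵`; in general it holds up to the factor `80/81`.  The lines avoid all
the vertices.
-/

namespace Pool.Agent.Results.MP_3c7b76_co.DenseCrossingLine

/-- The points `p i` are distinct and no three of them are collinear. -/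
def GenPos {n : ℕ} (p : Fin n → EuclideanSpace ℝ (Fin 2)) : Prop :=
  Function.Injective p ∧ ∀ i j k : Fin n, i ≠ j → j ≠ k → i ≠ k →
    ¬ Collinear ℝ ({p i, p j, p k} : Set (EuclideanSpace ℝ (Fin 2)))

/-- The number of edges of the graph `G`, drawn with straight segments on the points `p`, that the
line `L` meets. -/
noncomputable def edgesMet {n : ℕ} (p : Fin n → EuclideanSpace ℝ (Fin 2))
    (G : SimpleGraph (Fin n)) (L : AffineSubspace ℝ (EuclideanSpace ℝ (Fin 2))) : ℕ :=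
  ({q : Fin n × Fin n | q.1 < q.2 ∧ G.Adj q.1 q.2 ∧
    ((L : Set (EuclideanSpace ℝ (Fin 2))) ∩ segment ℝ (p q.1) (p q.2)).Nonempty}).ncard

/-- Some line containing none of the points meets at least `B` edges. -/
def HasLine {n : ℕ} (p : Fin n → EuclideanSpace ℝ (Fin 2)) (G : SimpleGraph (Fin n))
    (B : ℝ) : Prop :=
  ∃ L : AffineSubspace ℝ (EuclideanSpace ℝ (Fin 2)),
    Module.finrank ℝ L.direction = 1 ∧ (∀ i, p i ∉ L) ∧ B ≤ (edgesMet p G L : ℝ)

theorem hasLine_of {n : ℕ} (p : Fin n → EuclideanSpace ℝ (Fin 2)) (G : SimpleGraph (Fin n))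
    (B : ℝ) (h : ∀ K : ℕ, Pool.Agent.LinesCross.AllLinesLe (Pool.Agent.Helper976.ELSS.vs p)
      (Pool.Agent.Helper976.ELSS.es p G) K → B ≤ K) : HasLine p G B :=
  Pool.Agent.Helper976.ELSS.exists_line p G B h

theorem result (n e : ℕ) (p : Fin n → EuclideanSpace ℝ (Fin 2)) (G : SimpleGraph (Fin n))
    (hp : GenPos p) (he : G.edgeSet.ncard = e) :
    (n ^ 2 ≤ 4 * e + 2 * n → HasLine p G ((e / n) ^ 2 + e / n - 1 / 4)) ∧
    (n ^ 2 ≤ 4 * e + 2 * n ∨ n ≤ 357 ∨ e ≤ 79 * n ∨ 10 * e ^ 3 ≤ 39 * n ^ 5 →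
      HasLine p G ((e / n) ^ 2)) ∧
    HasLine p G (80 / 81 * (e / n) ^ 2) := by
  subst he
  have key := fun K hK => Pool.Agent.H994E.fin_all p G hp.1 hp.2 K hK
  exact ⟨fun h => hasLine_of p G _ (fun K hK => (key K hK).1 h),
    fun h => hasLine_of p G _ (fun K hK => (key K hK).2.1 h),
    hasLine_of p G _ (fun K hK => (key K hK).2.2)⟩

end Pool.Agent.Results.MP_3c7b76_co.DenseCrossingLine
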